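import Pool.Agent.Helper95.PN.Stmts
import Pool.Agent.Helper72.PM.PINM
import Pool.Agent.Helper2.PW.STB
import Pool.Agent.Helper2.PW.PAN

/-! # PN row ATTL: the attraction by one nucleus against a momentum operator -/

set_option autoImplicit false

namespace Pool.Agent.Helper49.PN

open MeasureTheory Filter Pool.Agent.Helper95.PW

theorem attL_id (hP : ST_PAN) (hB : ST_STB) {n : ℕ} {g W : R3 → ℝ}
    (hg : ContDiff ℝ (⊤ : ℕ∞) g) (hW : ContDiff ℝ (⊤ : ℕ∞) W) {v : Cf n → ℝ}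
    (hv : ContDiff ℝ (⊤ : ℕ∞) v) (hs : HasCompactSupport v) :
    ∫ x, pin_S W x * (Pg g v x * v x) = -(1 / 2) * ∫ x, pin_S (pin_D g W) x * v x ^ 2 := by
  have hPg : ContDiff ℝ (⊤ : ℕ∞) (Pg g v) ∧ HasCompactSupport (Pg g v) :=
    (hB n g (fun _ => v) hg (fun _ => ⟨hv, hs⟩)).2.1 (fun _ => 0)
  have a1 := hP n g v (fun x => pin_S W x * v x) hg hv hs ((pin_smS hW).mul hv)
  simp only [pin_com hW hv] at a1
  obtain ⟨P, eP⟩ : ∃ P, P = Pg g v := ⟨_, rfl⟩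
  rw [← eP] at a1 hPg ⊢
  have c0 := (pin_smS (n := n) hW).continuous
  have c1 := (pin_smS (n := n) (pin_smD hg hW)).continuous
  have cP := hPg.1.continuous
  have cv := hv.continuous
  have i1 : Integrable (fun x => pin_S W x * (P x * v x)) := by
    have := pin_ii (c0.mul cP) cv hs
    refine this.congr (ae_of_all _ fun x => ?_)
    simp only [Pi.mul_apply]
    ring
  have i2 : Integrable (fun x => pin_S (pin_D g W) x * v x ^ 2) := by
    have := pin_ii (c1.mul cv) cv hs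
    refine this.congr (ae_of_all _ fun x => ?_)
    simp only [Pi.mul_apply]
    ring
  have b1 : ∫ x, P x * (pin_S W x * v x) = ∫ x, pin_S W x * (P x * v x) := by
    refine integral_congr_ae (ae_of_all _ fun x => ?_)
    simp only
    ring
  have b2 : ∫ x, v x * (pin_S W x * P x + pin_S (pin_D g W) x * v x) =
      (∫ x, pin_S W x * (P x * v x)) + ∫ x, pin_S (pin_D g W) x * v x ^ 2 := by
    rw [← integral_add i1 i2]
    refine integral_congr_ae (ae_of_all _ fun x => ?_)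
    simp only
    ring
  rw [b1, b2] at a1
  linarith

theorem attL_grad {s : ℝ} (hs : 0 < s) {y : R3} (hy : y ≠ 0) :
    ∑ i, pd i (pin_U s) y ^ 2 ≤ (1 / nr y ^ 2) ^ 2 := by
  have ha := pin_nrpos hy
  have hn : y 0 ^ 2 + y 1 ^ 2 + y 2 ^ 2 = nr y ^ 2 := by
    unfold nr
    rw [Real.sq_sqrt (by positivity)]
  have hw := pin_fpos (pin_qpos hs y)
  have hw2 := pin_f2 (pin_qpos hs y)
  simp only [pin_pdU hs, Fin.sum_univ_three]
  unfold pin_A
  rw [pin_qn] at hw hw2 ⊢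
  obtain ⟨a, ea⟩ : ∃ a, a = nr y := ⟨_, rfl⟩
  rw [← ea] at ha hw hw2 hn ⊢
  obtain ⟨w, ew⟩ : ∃ w, w = pin_f (a ^ 2 + s ^ 2) := ⟨_, rfl⟩
  rw [← ew] at hw hw2 ⊢
  have e1 : ((-(1 / 2) * w ^ 3 - 3 / 4 * s ^ 2 * w ^ 5) * (2 * y 0)) ^ 2 +
      ((-(1 / 2) * w ^ 3 - 3 / 4 * s ^ 2 * w ^ 5) * (2 * y 1)) ^ 2 +
      ((-(1 / 2) * w ^ 3 - 3 / 4 * s ^ 2 * w ^ 5) * (2 * y 2)) ^ 2 =
      (w ^ 3 * (1 + 3 / 2 * (s ^ 2 * w ^ 2)) * a) ^ 2 := by
    calc _ = (w ^ 3 * (1 + 3 / 2 * (s ^ 2 * w ^ 2))) ^ 2 * (y 0 ^ 2 + y 1 ^ 2 + y 2 ^ 2) := by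
          ring
      _ = _ := by
          rw [hn]
          ring
  rw [e1]
  have hx : 0 < w * a := mul_pos hw ha
  have e2 : s ^ 2 * w ^ 2 = 1 - (w * a) ^ 2 := by linarith
  have e3 : w ^ 3 * (1 + 3 / 2 * (s ^ 2 * w ^ 2)) * a * a ^ 2 ≤ 1 := by
    rw [e2]
    have e4 : w ^ 3 * (1 + 3 / 2 * (1 - (w * a) ^ 2)) * a * a ^ 2 =
        1 - (w * a - 1) ^ 2 * (3 / 2 * (w * a) ^ 3 + 3 * (w * a) ^ 2 + 2 * (w * a) + 1) := by
      ring
    rw [e4]
    have : 0 ≤ (w * a - 1) ^ 2 * (3 / 2 * (w * a) ^ 3 + 3 * (w * a) ^ 2 + 2 * (w * a) + 1) := by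
      positivity
    linarith
  have e5 : 0 ≤ w ^ 3 * (1 + 3 / 2 * (s ^ 2 * w ^ 2)) * a := by positivity
  refine pow_le_pow_left₀ e5 ?_ 2
  rw [le_div_iff₀ (by positivity)]
  exact e3

theorem attL_pt (g : R3 → ℝ) (a : R3) {s : ℝ} (hs : 0 < s) {y : R3} (hy : y - a ≠ 0) :
    -pin_D g (pinM_U a s) y ≤ Real.sqrt (grd g y) / nr (y - a) ^ 2 := by
  have ha := pin_nrpos hy
  have h1 : ∀ i, pd i (pinM_U a s) y = pd i (pin_U s) (y - a) := by
    intro i
    have e : pinM_U a s = fun z => pin_U s (z - a) := rfl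
    unfold pd
    rw [e, fderiv_comp_sub]
  have h2 : (pin_D g (pinM_U a s) y) ^ 2 ≤ grd g y * (1 / nr (y - a) ^ 2) ^ 2 := by
    unfold pin_D grd
    simp only [h1]
    calc _ ≤ (∑ i, pd i g y ^ 2) * ∑ i, pd i (pin_U s) (y - a) ^ 2 :=
          Finset.sum_mul_sq_le_sq_mul_sq _ _ _
      _ ≤ _ := mul_le_mul_of_nonneg_left (attL_grad hs hy)
          (Finset.sum_nonneg fun i _ => sq_nonneg _)
  have h3 : |pin_D g (pinM_U a s) y| ≤ Real.sqrt (grd g y * (1 / nr (y - a) ^ 2) ^ 2) :=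
    Real.abs_le_sqrt h2
  have h4 : Real.sqrt (grd g y * (1 / nr (y - a) ^ 2) ^ 2) =
      Real.sqrt (grd g y) / nr (y - a) ^ 2 := by
    have hg0 : 0 ≤ grd g y := Finset.sum_nonneg fun i _ => sq_nonneg _
    rw [Real.sqrt_mul hg0, Real.sqrt_sq (by positivity)]
    ring
  rw [h4] at h3
  exact (neg_le_abs _).trans h3

theorem attL_bd {g : R3 → ℝ} (hg : ContDiff ℝ (⊤ : ℕ∞) g) (hc : HasCompactSupport g) :
    ∃ B : ℝ, 0 ≤ B ∧ ∀ y, Real.sqrt (grd g y) ≤ B := by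
  have h : ∀ i : Fin 3, ∃ C, ∀ y, ‖pd i g y‖ ≤ C := by
    intro i
    refine (pin_smpd hg i).continuous.bounded_above_of_compact_support ?_
    unfold pd
    exact hc.fderiv_apply (𝕜 := ℝ) _
  choose C hC using h
  refine ⟨Real.sqrt (∑ i, C i ^ 2), Real.sqrt_nonneg _, fun y => Real.sqrt_le_sqrt ?_⟩
  refine Finset.sum_le_sum fun i _ => ?_
  rw [← sq_abs (pd i g y)]
  exact pow_le_pow_left₀ (abs_nonneg _) (hC i y) 2

theorem grd_cont {g : R3 → ℝ} (hg : ContDiff ℝ (⊤ : ℕ∞) g) :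
    Continuous fun y => Real.sqrt (grd g y) := by
  unfold grd
  exact Real.continuous_sqrt.comp
    (continuous_finsetSum _ fun i _ => ((pin_smpd hg i).continuous).pow 2)

theorem attL_int (h2 : ST_HA3) {n : ℕ} {g : R3 → ℝ} (a : R3) (hg : ContDiff ℝ (⊤ : ℕ∞) g)
    (hc : HasCompactSupport g) {v : Cf n → ℝ} (hv : ContDiff ℝ (⊤ : ℕ∞) v)
    (hs : HasCompactSupport v) :
    Integrable (fun x : Cf n => (∑ k, Real.sqrt (grd g (x k)) / nr (x k - a) ^ 2) *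
      v x ^ 2) := by
  obtain ⟨B, hB, hBg⟩ := attL_bd hg hc
  have h : ∀ k : Fin n, Integrable (fun x : Cf n =>
      Real.sqrt (grd g (x k)) * (v x ^ 2 / nr (x k - a) ^ 2)) := by
    intro k
    have hi := (h2 n k a v hv hs).1
    refine (hi.const_mul B).mono' ?_ (ae_of_all _ fun x => ?_)
    · exact (((grd_cont hg).comp (continuous_apply k)).aestronglyMeasurable).mul
        hi.aestronglyMeasurable
    · rw [Real.norm_eq_abs, abs_mul, abs_of_nonneg (Real.sqrt_nonneg _),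
        abs_of_nonneg (show (0 : ℝ) ≤ v x ^ 2 / nr (x k - a) ^ 2 by positivity)]
      exact mul_le_mul_of_nonneg_right (hBg _) (by positivity)
  refine (integrable_finsetSum Finset.univ fun k _ => h k).congr (ae_of_all _ fun x => ?_)
  simp only
  rw [Finset.sum_mul]
  refine Finset.sum_congr rfl fun k _ => ?_
  ring

theorem st_ATTL (h1 : ST_IBP) (h2 : ST_HA3) (h3 : ST_INTM) : ST_ATTL := by
  intro n g a u hg hc hu
  have hPAN : ST_PAN := Pool.Agent.Helper2.PW.st_PAN h1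
  have hSTB : ST_STB := Pool.Agent.Helper2.PW.st_STB
  have hP := (hSTB n g u hg hu).2.1
  have hI : ∀ s, Integrable (fun x : Cf n => (∑ k, Real.sqrt (grd g (x k)) /
      nr (x k - a) ^ 2) * u s x ^ 2) := fun s => attL_int h2 a hg hc (hu s).1 (hu s).2
  refine ⟨hI, ?_⟩
  have lim : Tendsto (fun j : ℕ => ∑ s, ∫ x, pin_S (pinM_U a (1 / ((j : ℝ) + 1))) x *
      (Pg g (u s) x * u s x)) atTop
      (nhds (∑ s, ∫ x, (∑ k, 1 / nr (x k - a)) * (Pg g (u s) x * u s x))) :=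
    tendsto_finsetSum _ fun s _ => pinM_lim h3 a (hP s).1 (hP s).2 (hu s).1 (hu s).2
  refine le_of_tendsto' lim fun j => ?_
  have hs0 : (0 : ℝ) < 1 / ((j : ℝ) + 1) := by positivity
  generalize 1 / ((j : ℝ) + 1) = s0 at hs0 ⊢
  unfold one
  rw [Finset.mul_sum]
  refine Finset.sum_le_sum fun s _ => ?_
  have hWs := pinM_smU a hs0
  rw [attL_id hPAN hSTB hg hWs (hu s).1 (hu s).2]
  have e : -(1 / 2) * (∫ x, pin_S (pin_D g (pinM_U a s0)) x * u s x ^ 2) =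
      1 / 2 * ∫ x, -(pin_S (pin_D g (pinM_U a s0)) x * u s x ^ 2) := by
    rw [integral_neg]
    ring
  rw [e]
  refine mul_le_mul_of_nonneg_left ?_ (by norm_num)
  have i2 : Integrable (fun x => pin_S (pin_D g (pinM_U a s0)) x * u s x ^ 2) := by
    have := pin_ii (((pin_smS (n := n) (pin_smD hg hWs)).continuous).mul
      (hu s).1.continuous) (hu s).1.continuous (hu s).2
    refine this.congr (ae_of_all _ fun x => ?_)
    simp only [Pi.mul_apply]
    ring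
  refine integral_mono_ae i2.neg (hI s) ?_
  filter_upwards [pinM_ae n a] with x hx
  have hp : -pin_S (pin_D g (pinM_U a s0)) x ≤
      ∑ k, Real.sqrt (grd g (x k)) / nr (x k - a) ^ 2 := by
    unfold pin_S
    rw [← Finset.sum_neg_distrib]
    exact Finset.sum_le_sum fun k _ => attL_pt g a hs0 (hx k)
  have := mul_le_mul_of_nonneg_right hp (sq_nonneg (u s x))
  linarith

end Pool.Agent.Helper49.PN
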